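import Pool.Agent.H174.GM.Stmts2

set_option autoImplicit false

/-!
# MP_b6786a_co: `magogW` is positive
-/

namespace Pool.Agent.H187.GM174

open Finset Pool.Agent.H174.GM

theorem nm_pos (k : ℕ) : ∀ m : ℕ, 0 < NM k m (fun _ => m)
  | 0 => by simp [NM]
  | m + 1 => by
    classical
    have ih := nm_pos k m
    rw [NM, if_pos (fun _ => by omega)]
    refine lt_of_lt_of_le ih (Finset.single_le_sum
      (f := fun b : Fin k → ℕ => NM k m b) (fun b _ => Nat.zero_le _) ?_)
    rw [Finset.mem_filter, Fintype.mem_piFinset]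
    exact ⟨fun _ => Finset.mem_range.2 (by omega), fun _ => le_rfl, fun _ _ _ => le_rfl⟩

theorem pos : S_POS := by
  intro n k
  unfold magogW
  refine lt_of_lt_of_le (nm_pos k n) (Finset.single_le_sum
      (f := fun b : Fin k → ℕ => NM k n b) (fun b _ => Nat.zero_le _) ?_)
  rw [Fintype.mem_piFinset]
  exact fun _ => Finset.mem_range.2 (by omega)

end Pool.Agent.H187.GM174
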